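import Pool.Agent.Y830.EP.Pull

/-!
Continuum many positive bounded solutions on uniformly smooth epigraphs of every dimension at
least ten.
-/

set_option autoImplicit false
open Filter Topology Set Metric
open scoped InnerProductSpace

namespace Pool.Agent.Y830.EP

open Pool.Agent.H314.Dir Pool.Agent.H52R3.Epi
open Pool.Agent.Results.MP_3eb465_an.TwoSolutionsOnEpigraph

theorem base_reaction (γ : NNReal) (h1 : γ ≤ 1) : IsPositiveReaction γ fr :=
  ⟨contDiff_fr, ⟨_, deriv_fr_bdd⟩, holder_fr γ h1, fr_zero, fr_one,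
    fun _ => fr_pos, deriv_fr_zero, fun _ => fr_neg, deriv_fr_one⟩

theorem base_epi : ∃ φ : (Fin 9 → ℝ) → ℝ, ContDiff ℝ 2 φ ∧ epigraph φ = Om := by
  refine ⟨fun w : Fin 9 → ℝ => -Real.cos (Real.pi / 2 * w 0) *
    Real.exp (Real.sqrt (1000000 + ∑ i : Fin 8, (w i.succ) ^ 2)) -
    (1000000 + ∑ i : Fin 8, (w i.succ) ^ 2), ?_, ?_⟩
  · have hS : ContDiff ℝ 2 (fun w : Fin 9 → ℝ => 1000000 + ∑ i : Fin 8, (w i.succ) ^ 2) := by
      fun_prop
    have hpos : ∀ w : Fin 9 → ℝ, 1000000 + ∑ i : Fin 8, (w i.succ) ^ 2 ≠ 0 := by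
      intro w
      have : 0 ≤ ∑ i : Fin 8, (w i.succ) ^ 2 := Finset.sum_nonneg fun i _ => sq_nonneg _
      linarith
    have hc : ContDiff ℝ 2 (fun w : Fin 9 → ℝ => Real.cos (Real.pi / 2 * w 0)) := by
      fun_prop
    exact ((hc.neg).mul ((hS.sqrt hpos).exp)).sub hS
  · ext X
    exact (DF.FF_neg_iff X).symm

theorem base_smooth (γ : NNReal) (h0 : 0 < γ) (h1 : γ < 1) : UniformlySmooth γ Om := by
  obtain ⟨c, hc, hg⟩ := DF.grad_FF
  obtain ⟨C, hC⟩ := DF.bound_FF
  obtain ⟨r, hr, M, hM⟩ := unif_graph FF DF.contDiff_FF c C hc hg hC γ h0 h1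
  exact ⟨r, hr, M, fun p hp => hM p (DF.frontier_subset hp)⟩

theorem base_solution (A : Set ℤ) : ∃ u : EX → ℝ, IsPositiveBoundedSolution fr Om u ∧
    ∀ a : ℤ, a ∈ A ↔ 1 / 2 * (1 - 1 / 1000000) ≤ u (Pt a) := by
  obtain ⟨u, u1, u2, u3, u4, u5, u6⟩ := exists_pattern A
  refine ⟨u, ⟨u1, u2, ⟨1, fun x hx => ?_⟩, u4, u3, fun x hx => ?_⟩, pattern u5⟩
  · rw [abs_of_pos (u4 x hx)]
    exact (u5 x hx).2.trans (max_le (Sp.Sf_le_one x) (chi_le_one A x))
  · rw [← lap_eq_laplacian]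
    exact u6 x hx

/-- the coordinates of the cylinder -/
def io (k : ℕ) (j : Fin (9 + 1)) : Fin (9 + k + 1) :=
  Fin.lastCases (motive := fun _ => Fin (9 + k + 1)) (Fin.last (9 + k))
    (fun i => Fin.castSucc (Fin.castAdd k i)) j

lemma io_last (k : ℕ) : io k (Fin.last 9) = Fin.last (9 + k) := by
  unfold io
  rw [Fin.lastCases_last]

lemma io_castSucc (k : ℕ) (i : Fin 9) :
    io k (Fin.castSucc i) = Fin.castSucc (Fin.castAdd k i) := by
  unfold io
  rw [Fin.lastCases_castSucc]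

lemma io_injective (k : ℕ) : Function.Injective (io k) := by
  intro a b
  refine Fin.lastCases ?_ (fun i => ?_) a
  · refine Fin.lastCases ?_ (fun j => ?_) b
    · intro _
      rfl
    · intro h
      rw [io_last, io_castSucc] at h
      exact absurd h.symm (Fin.castSucc_lt_last _).ne
  · refine Fin.lastCases ?_ (fun j => ?_) b
    · intro h
      rw [io_last, io_castSucc] at h
      exact absurd h (Fin.castSucc_lt_last _).ne
    · intro h
      rw [io_castSucc, io_castSucc] at h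
      have h1 := Fin.castAdd_injective 9 k (Fin.castSucc_injective _ h)
      rw [h1]

/-- the projection of the cylinder -/
noncomputable def PK (k : ℕ) :
    EuclideanSpace ℝ (Fin (9 + k + 1)) →L[ℝ] EuclideanSpace ℝ (Fin (9 + 1)) :=
  LinearMap.toContinuousLinearMap
    { toFun := fun X => WithLp.toLp 2 (fun j => X.ofLp (io k j))
      map_add' := fun _ _ => rfl
      map_smul' := fun _ _ => rfl }

lemma PK_apply (k : ℕ) (X : EuclideanSpace ℝ (Fin (9 + k + 1))) (j : Fin (9 + 1)) :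
    (PK k X).ofLp j = X.ofLp (io k j) := rfl

theorem final (k : ℕ) : ∃ (φ : (Fin (9 + k) → ℝ) → ℝ)
    (u : Set ℤ → EuclideanSpace ℝ (Fin (9 + k + 1)) → ℝ)
    (p : ℤ → EuclideanSpace ℝ (Fin (9 + k + 1))) (s : ℝ),
    ContDiff ℝ 2 φ ∧
    (∀ γ : NNReal, 0 < γ → γ < 1 → UniformlySmooth γ (epigraph φ)) ∧
    (∀ A, IsPositiveBoundedSolution fr (epigraph φ) (u A)) ∧
    (∀ a, p a ∈ epigraph φ) ∧ ∀ A a, a ∈ A ↔ s ≤ u A (p a) := by
  obtain ⟨φ, hφ, hep⟩ := base_epi
  have hco := coIso_of_coord (io_injective k) (PK_apply k)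
  have hepk : epigraph (fun w : Fin (9 + k) → ℝ => φ (fun i => w (Fin.castAdd k i)))
      = PK k ⁻¹' Om := by
    rw [← hep]
    ext X
    show φ (fun i => X.ofLp (Fin.castSucc (Fin.castAdd k i))) < X.ofLp (Fin.last (9 + k)) ↔
      φ (fun i => X.ofLp (io k (Fin.castSucc i))) < X.ofLp (io k (Fin.last 9))
    rw [io_last]
    simp only [io_castSucc]
  choose u hu hpat using base_solution
  refine ⟨fun w => φ (fun i => w (Fin.castAdd k i)), fun A => u A ∘ PK k,
    fun a => ContinuousLinearMap.adjoint (PK k) (Pt a), 1 / 2 * (1 - 1 / 1000000), ?_, ?_, ?_,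
    ?_, ?_⟩
  · exact hφ.comp (by fun_prop)
  · intro γ h0 h1
    rw [hepk]
    exact hco.uniformlySmooth (base_smooth γ h0 h1)
  · intro A
    rw [hepk]
    exact solution_pull (io_injective k) (PK_apply k) isOpen_Om (hu A)
  · intro a
    rw [hepk]
    show PK k (ContinuousLinearMap.adjoint (PK k) (Pt a)) ∈ Om
    rw [hco]
    exact Pt_mem a
  · intro A a
    show a ∈ A ↔ _ ≤ u A (PK k (ContinuousLinearMap.adjoint (PK k) (Pt a)))
    rw [hco]
    exact hpat A a

end Pool.Agent.Y830.EP
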