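import Pool.Agent.H52R3.EpiMain

/-!
Continuum many positive bounded solutions on one epigraph: in every pocket of the domain one can
prescribe independently whether the solution is large or small.
-/

set_option autoImplicit false
open Filter Topology Set Metric

namespace Pool.Agent.Y830.EP

open Pool.Agent.H314.Dir Pool.Agent.H52R3.Epi

/-- the centres of the pockets with index in `A` -/
def ctr (A : Set ℤ) : Set ℝ := (fun a : ℤ => 4 * (a : ℝ)) '' A

open Classical in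
/-- a Lipschitz function of the coordinate `z` that is `1` on the pockets of `A` and `0` on the
other pockets -/
noncomputable def chi (A : Set ℤ) (X : EX) : ℝ :=
  if A.Nonempty then max 0 (min 1 (4 - 2 * infDist (X.ofLp 0) (ctr A))) else 0

lemma chi_nonneg (A : Set ℤ) (X : EX) : 0 ≤ chi A X := by
  unfold chi
  split_ifs
  · exact le_max_left _ _
  · exact le_rfl

lemma chi_le_one (A : Set ℤ) (X : EX) : chi A X ≤ 1 := by
  unfold chi
  split_ifs
  · exact max_le zero_le_one (min_le_left _ _)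
  · exact zero_le_one

lemma chi_lip (A : Set ℤ) : LocallyLipschitz (chi A) := by
  unfold chi
  split_ifs
  · have h1 : ContDiff ℝ 1 (fun X : EX => X.ofLp 0) := by fun_prop
    have h2 : LocallyLipschitz (fun X : EX => infDist (X.ofLp 0) (ctr A)) :=
      (lipschitz_infDist_pt (ctr A)).locallyLipschitz.comp h1.locallyLipschitz
    have h3 : ContDiff ℝ 1 (fun t : ℝ => 4 - 2 * t) := by fun_prop
    exact ((h3.locallyLipschitz.comp h2).const_min 1).const_max 0
  · exact LocallyLipschitz.const 0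

lemma chi_eq_one {A : Set ℤ} {a : ℤ} (ha : a ∈ A) {X : EX} (h : |X.ofLp 0 - 4 * a| ≤ 3 / 2) :
    chi A X = 1 := by
  unfold chi
  rw [if_pos ⟨a, ha⟩]
  have h1 : infDist (X.ofLp 0) (ctr A) ≤ 3 / 2 :=
    (infDist_le_dist_of_mem (mem_image_of_mem _ ha)).trans (by rw [Real.dist_eq]; exact h)
  rw [min_eq_left (by linarith), max_eq_right zero_le_one]

lemma chi_eq_zero {A : Set ℤ} {a : ℤ} (ha : a ∉ A) {X : EX} (h : |X.ofLp 0 - 4 * a| ≤ 3 / 2) :
    chi A X = 0 := by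
  unfold chi
  split_ifs with hA
  · have h1 : 2 ≤ infDist (X.ofLp 0) (ctr A) := by
      have hne : (ctr A).Nonempty := hA.image _
      rw [le_infDist hne]
      rintro _ ⟨b, hb, rfl⟩
      have hab : b ≠ a := fun h => ha (h ▸ hb)
      have h2 : (1 : ℝ) ≤ |(a : ℝ) - b| := by
        have h3 : 1 ≤ |a - b| := Int.one_le_abs (sub_ne_zero.2 (Ne.symm hab))
        exact_mod_cast h3
      rw [Real.dist_eq]
      have h4 : (4 : ℝ) * |(a : ℝ) - b| ≤ |X.ofLp 0 - 4 * a| + |X.ofLp 0 - 4 * b| := by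
        have h5 : (4 : ℝ) * |(a : ℝ) - b| = |(X.ofLp 0 - 4 * b) - (X.ofLp 0 - 4 * a)| := by
          rw [show (X.ofLp 0 - 4 * b) - (X.ofLp 0 - 4 * a) = 4 * ((a : ℝ) - b) by ring, abs_mul]
          norm_num
        rw [h5]
        have := abs_sub (X.ofLp 0 - 4 * (b : ℝ)) (X.ofLp 0 - 4 * a)
        linarith
      show 2 ≤ |X.ofLp 0 - 4 * (b : ℝ)|
      linarith
    rw [max_eq_left]
    exact (min_le_right _ _).trans (by linarith)
  · rfl

/-- a point with `cos (π z / 2) > - 1 / 2` lies in the strip of a pocket -/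
lemma pocket {X : EX} (h : -(1 / 2) < Cf X) : ∃ a : ℤ, |X.ofLp 0 - 4 * a| < 3 / 2 := by
  refine ⟨round (X.ofLp 0 / 4), ?_⟩
  by_contra hcon
  push Not at hcon
  have h1 := abs_sub_round (X.ofLp 0 / 4)
  set a := round (X.ofLp 0 / 4)
  have h2 : |X.ofLp 0 - 4 * a| ≤ 2 := by
    have h3 : X.ofLp 0 - 4 * a = 4 * (X.ofLp 0 / 4 - a) := by ring
    rw [h3, abs_mul]
    have : |(4 : ℝ)| = 4 := by norm_num
    rw [this]
    linarith
  have h4 : Cf X = Real.cos (Real.pi / 2 * |X.ofLp 0 - 4 * a|) := by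
    have h5 : Real.pi / 2 * |X.ofLp 0 - 4 * a| = |Real.pi / 2 * (X.ofLp 0 - 4 * a)| := by
      rw [abs_mul, abs_of_pos (by positivity : 0 < Real.pi / 2)]
    rw [h5, Real.cos_abs]
    have h6 : Real.pi / 2 * (X.ofLp 0 - 4 * a) = Real.pi / 2 * X.ofLp 0 - a * (2 * Real.pi) := by
      ring
    rw [h6, Real.cos_sub_int_mul_two_pi]
    rfl
  have h7 : Real.cos (Real.pi / 2 * |X.ofLp 0 - 4 * a|) ≤ Real.cos (Real.pi / 2 * (3 / 2)) := by
    apply Real.cos_le_cos_of_nonneg_of_le_pi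
    · positivity
    · nlinarith [Real.pi_pos]
    · nlinarith [Real.pi_pos]
  have h8 : Real.cos (Real.pi / 2 * (3 / 2)) = -(Real.sqrt 2 / 2) := by
    rw [show Real.pi / 2 * (3 / 2) = Real.pi - Real.pi / 4 by ring, Real.cos_pi_sub,
      Real.cos_pi_div_four]
  have h9 : (1 : ℝ) ≤ Real.sqrt 2 := by
    rw [Real.one_le_sqrt]
    norm_num
  rw [h4] at h
  rw [h8] at h7
  linarith

lemma strip_nhds {X : EX} {a : ℤ} (h : |X.ofLp 0 - 4 * a| < 3 / 2) :
    ∀ᶠ Y : EX in 𝓝 X, |Y.ofLp 0 - 4 * a| < 3 / 2 := by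
  have hc : Continuous fun Y : EX => |Y.ofLp 0 - 4 * (a : ℝ)| := by fun_prop
  exact hc.continuousAt.eventually_lt_const h

/-- the subsolution -/
noncomputable def VA (A : Set ℤ) (X : EX) : ℝ :=
  max (Vf (1 / 4) X) (min (Vf (1 / 2) X) (chi A X))

/-- the supersolution -/
noncomputable def SA (A : Set ℤ) (X : EX) : ℝ := max (Sf X) (chi A X)

lemma Vf_mono (X : EX) : Vf (1 / 4) X ≤ Vf (1 / 2) X := by
  have h := Sb.Vf_nonneg (c := 1 / 4) (by norm_num) X
  have e : Vf (1 / 2) X = 2 * Vf (1 / 4) X := by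
    unfold Vf
    ring
  rw [e]
  linarith

lemma VA_of_mem {A : Set ℤ} {a : ℤ} (ha : a ∈ A) {X : EX} (h : |X.ofLp 0 - 4 * a| ≤ 3 / 2) :
    VA A X = Vf (1 / 2) X := by
  unfold VA
  rw [chi_eq_one ha h]
  have h1 := Sb.Vf_le (c := 1 / 2) (by norm_num) X
  rw [min_eq_left (by linarith), max_eq_right (Vf_mono X)]

lemma VA_of_notMem {A : Set ℤ} {a : ℤ} (ha : a ∉ A) {X : EX} (h : |X.ofLp 0 - 4 * a| ≤ 3 / 2) :
    VA A X = Vf (1 / 4) X := by
  unfold VA
  rw [chi_eq_zero ha h, min_eq_right (Sb.Vf_nonneg (by norm_num) X),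
    max_eq_left (Sb.Vf_nonneg (by norm_num) X)]

lemma Sf_nonneg (X : EX) : 0 ≤ Sf X := by
  unfold Sf
  exact le_max_of_le_right (le_max_left _ _)

lemma SA_of_notMem {A : Set ℤ} {a : ℤ} (ha : a ∉ A) {X : EX} (h : |X.ofLp 0 - 4 * a| ≤ 3 / 2) :
    SA A X = Sf X := by
  unfold SA
  rw [chi_eq_zero ha h, max_eq_left (Sf_nonneg X)]

lemma Cf_pos_of_VA_pos {A : Set ℤ} {X : EX} (h : 0 < VA A X) : 0 < Cf X := by
  have h1 : 0 < Vf (1 / 2) X := by
    unfold VA at h
    rcases lt_max_iff.1 h with h2 | h2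
    · exact h2.trans_le (Vf_mono X)
    · exact (lt_min_iff.1 h2).1
  by_contra hcon
  push Not at hcon
  unfold Vf at h1
  rw [max_eq_left hcon, mul_zero, zero_mul] at h1
  exact lt_irrefl _ h1

/-- for every set `A` of pockets there is a solution that is large exactly in the pockets of `A` -/
theorem exists_pattern (A : Set ℤ) :
    ∃ u : EX → ℝ, ContDiffOn ℝ 2 u Om ∧ ContinuousOn u (closure Om) ∧
      (∀ x ∈ frontier Om, u x = 0) ∧ (∀ x ∈ Om, 0 < u x) ∧
      (∀ x ∈ Om, VA A x ≤ u x ∧ u x ≤ SA A x) ∧ (∀ x ∈ Om, - lap u x = fr (u x)) := by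
  refine dirichlet_exists Om isOpen_Om ext_Om DF.isPreconnected_Omega fr 8 (by norm_num)
    locallyLipschitz_fr monotone_fr fr_nonneg fr_one (VA A) (SA A)
    ((Sb.Vf_locallyLipschitz _).max ((Sb.Vf_locallyLipschitz _).min (chi_lip A)))
    (Sp.Sf_locallyLipschitz.max (chi_lip A)) ?_ ?_ ?_ ?_ ?_ ?_ ?_
  · intro x
    exact (Sb.Vf_nonneg (by norm_num) x).trans (le_max_left _ _)
  · intro x
    exact max_le_max (Sp.Vf_le_Sf x) (min_le_right _ _)
  · intro x
    exact max_le (Sp.Sf_le_one x) (chi_le_one A x)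
  · intro x hx
    have hz : ∀ c : ℝ, 0 ≤ c → Vf c x = 0 := by
      intro c hc
      by_contra h
      have h1 : 0 < Vf c x := lt_of_le_of_ne (Sb.Vf_nonneg hc x) (Ne.symm h)
      exact hx (Sb.FF_neg_of_Vf_pos hc h1)
    unfold VA
    rw [hz _ (by norm_num), hz _ (by norm_num), min_eq_left (chi_nonneg A x), max_self]
  · intro x _ h
    have hC := Cf_pos_of_VA_pos h
    obtain ⟨a, ha⟩ := pocket (X := x) (by linarith)
    have hnh := strip_nhds ha
    by_cases hA : a ∈ A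
    · have heq : VA A =ᶠ[𝓝 x] Vf (1 / 2) := by
        filter_upwards [hnh] with y hy
        exact VA_of_mem hA hy.le
      rw [heq.eq_of_nhds] at h ⊢
      obtain ⟨h1, h2⟩ := Sb.Vf_sub (c := 1 / 2) (by norm_num) h
      refine ⟨h1.congr_of_eventuallyEq heq, ?_⟩
      have h3 := Sb.Vf_le (c := 1 / 2) (by norm_num) x
      rw [lap_congr heq, fr_eq_ff (by linarith), Re.ff_eq h3]
      exact h2
    · have heq : VA A =ᶠ[𝓝 x] Vf (1 / 4) := by
        filter_upwards [hnh] with y hy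
        exact VA_of_notMem hA hy.le
      rw [heq.eq_of_nhds] at h ⊢
      obtain ⟨h1, h2⟩ := Sb.Vf_sub (c := 1 / 4) (by norm_num) h
      refine ⟨h1.congr_of_eventuallyEq heq, ?_⟩
      have h3 := Sb.Vf_le (c := 1 / 4) (by norm_num) x
      rw [lap_congr heq, fr_eq_ff (by linarith), Re.ff_eq (by linarith)]
      exact h2
  · intro x hx h
    have hSf : Sf x < 1 := lt_of_le_of_lt (le_max_left _ _) h
    have hch : chi A x < 1 := lt_of_le_of_lt (le_max_right _ _) h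
    -- the point is in a pocket
    have hm1 : min 1 (16 * (qf x) ^ 2 * thf x - 1) < 1 := by
      refine lt_of_le_of_lt ?_ hSf
      unfold Sf
      exact le_max_of_le_right (le_max_right _ _)
    have h16 : 16 * (qf x) ^ 2 * thf x - 1 < 1 := by
      rcases min_lt_iff.1 hm1 with h1 | h1
      · exact absurd h1 (lt_irrefl _)
      · exact h1
    have hq := Sp.qf_ge x
    have hth : thf x < 1 / 2 := by
      by_contra hcon
      push Not at hcon
      have hq2 : (1 : ℝ) ≤ (qf x) ^ 2 := by nlinarith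
      nlinarith
    have hx' : FF x < 0 := hx
    have hC : -(1 / 2) < Cf x := by
      unfold FF at hx'
      linarith
    obtain ⟨a, ha⟩ := pocket hC
    have hA : a ∉ A := by
      intro hA
      rw [chi_eq_one hA ha.le] at hch
      exact lt_irrefl _ hch
    have heq : SA A =ᶠ[𝓝 x] Sf := by
      filter_upwards [strip_nhds ha] with y hy
      exact SA_of_notMem hA hy.le
    obtain ⟨h1, h2⟩ := Sp.Sf_super hx' hSf
    refine ⟨h1.congr_of_eventuallyEq heq, ?_⟩
    rw [lap_congr heq, heq.eq_of_nhds, fr_eq_ff hSf.le]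
    exact (Re.ff_le _).trans h2
  · refine ⟨0, lt_of_lt_of_le ?_ (le_max_left _ _)⟩
    have h := Sb.Vf_zero
    have e : Vf (1 / 2) 0 = 2 * Vf (1 / 4) 0 := by
      unfold Vf
      ring
    rw [e] at h
    linarith

/-- the centre of the pocket with index `a` -/
noncomputable def Pt (a : ℤ) : EX := EuclideanSpace.single 0 (4 * (a : ℝ))

lemma Pt_zero (a : ℤ) : (Pt a).ofLp 0 = 4 * a := by
  unfold Pt
  simp

lemma Pt_ne (a : ℤ) {i : Fin (9 + 1)} (hi : i ≠ 0) : (Pt a).ofLp i = 0 := by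
  unfold Pt
  simp [hi]

lemma qf_Pt (a : ℤ) : qf (Pt a) = qf 0 := by
  have h : ∀ i : Fin 8, ((Pt a).ofLp (Fin.castSucc i.succ)) ^ 2
      = ((0 : EX).ofLp (Fin.castSucc i.succ)) ^ 2 := by
    intro i
    rw [Pt_ne a (DF.mid_ne_zero i)]
    rfl
  unfold qf
  rw [Finset.sum_congr rfl fun i _ => h i]

lemma yf_Pt (a : ℤ) : yf (Pt a) = yf 0 := by
  unfold yf
  rw [Pt_ne a (by decide)]
  rfl

lemma Cf_Pt (a : ℤ) : Cf (Pt a) = Cf 0 := by
  unfold Cf
  rw [Pt_zero]
  have h : Real.pi / 2 * (4 * (a : ℝ)) = 0 + a * (2 * Real.pi) := by ring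
  rw [h, Real.cos_add_int_mul_two_pi]
  simp

lemma Vf_Pt (c : ℝ) (a : ℤ) : Vf c (Pt a) = Vf c 0 := by
  unfold Vf bf
  rw [qf_Pt, yf_Pt, Cf_Pt]

lemma Sf_Pt (a : ℤ) : Sf (Pt a) = Sf 0 := by
  unfold Sf S0 gf bf thf
  rw [qf_Pt, yf_Pt, Cf_Pt]

lemma Pt_strip (a : ℤ) : |(Pt a).ofLp 0 - 4 * a| ≤ 3 / 2 := by
  rw [Pt_zero, sub_self, abs_zero]
  norm_num

lemma Pt_mem (a : ℤ) : Pt a ∈ Om := by
  have h : 0 < Vf (1 / 2) (Pt a) := by
    rw [Vf_Pt, Sb.Vf_zero]
    norm_num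
  exact Sb.FF_neg_of_Vf_pos (c := 1 / 2) (by norm_num) h

/-- the value of `u` at the centre of the pocket `a` tells whether `a` belongs to `A` -/
lemma pattern {A : Set ℤ} {u : EX → ℝ} (h : ∀ x ∈ Om, VA A x ≤ u x ∧ u x ≤ SA A x) (a : ℤ) :
    a ∈ A ↔ 1 / 2 * (1 - 1 / 1000000) ≤ u (Pt a) := by
  obtain ⟨h1, h2⟩ := h _ (Pt_mem a)
  constructor
  · intro ha
    rw [VA_of_mem ha (Pt_strip a), Vf_Pt, Sb.Vf_zero] at h1
    exact h1
  · intro h3
    by_contra ha
    rw [SA_of_notMem ha (Pt_strip a), Sf_Pt] at h2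
    have := Sp.Sf_zero
    linarith

end Pool.Agent.Y830.EP
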