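import Pool.Agent.Results.MP_3eb465_an.TwoSolutionsOnEpigraph
import Pool.Agent.Y830.EP.Many

/-!
Cylinders over domains: smoothness and solutions are pulled back by a coordinate projection.
-/

set_option autoImplicit false
open Filter Topology Set Metric
open scoped InnerProductSpace

namespace Pool.Agent.Y830.EP

open Pool.Agent.H314.Dir Pool.Agent.H52R3.Epi
open Pool.Agent.Results.MP_3eb465_an.TwoSolutionsOnEpigraph

variable {m n : ℕ} {P : EuclideanSpace ℝ (Fin n) →L[ℝ] EuclideanSpace ℝ (Fin m)}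

/-- `P` is a partial isometry with right inverse its adjoint -/
def CoIso (P : EuclideanSpace ℝ (Fin n) →L[ℝ] EuclideanSpace ℝ (Fin m)) : Prop :=
  ∀ v, P (ContinuousLinearMap.adjoint P v) = v

lemma CoIso.norm_adj (hP : CoIso P) (v : EuclideanSpace ℝ (Fin m)) :
    ‖ContinuousLinearMap.adjoint P v‖ = ‖v‖ := by
  have h : ‖ContinuousLinearMap.adjoint P v‖ ^ 2 = ‖v‖ ^ 2 := by
    rw [← real_inner_self_eq_norm_sq, ← real_inner_self_eq_norm_sq,
      ContinuousLinearMap.adjoint_inner_right, hP v]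
  exact (sq_eq_sq₀ (norm_nonneg _) (norm_nonneg _)).1 h

lemma CoIso.norm_le (hP : CoIso P) (x : EuclideanSpace ℝ (Fin n)) : ‖P x‖ ≤ ‖x‖ := by
  have h : ‖P x‖ * ‖P x‖ ≤ ‖x‖ * ‖P x‖ := by
    rw [← real_inner_self_eq_norm_mul_norm, ← ContinuousLinearMap.adjoint_inner_right]
    calc inner ℝ x (ContinuousLinearMap.adjoint P (P x))
        ≤ ‖x‖ * ‖ContinuousLinearMap.adjoint P (P x)‖ := real_inner_le_norm _ _
      _ = ‖x‖ * ‖P x‖ := by rw [hP.norm_adj]
  rcases (norm_nonneg (P x)).lt_or_eq with h0 | h0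
  · exact le_of_mul_le_mul_right h h0
  · rw [← h0]
    exact norm_nonneg _

lemma CoIso.opNorm_le (hP : CoIso P) : ‖P‖ ≤ 1 :=
  P.opNorm_le_bound zero_le_one (fun x => by rw [one_mul]; exact hP.norm_le x)

lemma CoIso.isOpenMap (hP : CoIso P) : IsOpenMap P :=
  P.isOpenMap fun v => ⟨_, hP v⟩

lemma CoIso.dist_le (hP : CoIso P) (x y : EuclideanSpace ℝ (Fin n)) :
    dist (P x) (P y) ≤ dist x y := by
  rw [dist_eq_norm, dist_eq_norm, ← map_sub]
  exact hP.norm_le _

/-- cylinders over uniformly smooth domains are uniformly smooth -/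
lemma CoIso.uniformlySmooth (hP : CoIso P) {γ : NNReal} {Ω : Set (EuclideanSpace ℝ (Fin m))}
    (h : UniformlySmooth γ Ω) : UniformlySmooth γ (P ⁻¹' Ω) := by
  obtain ⟨r, hr, M, hM⟩ := h
  refine ⟨r, hr, M, fun p hp => ?_⟩
  have hp' : P p ∈ frontier Ω := by
    rw [← hP.isOpenMap.preimage_frontier_eq_frontier_preimage P.continuous] at hp
    exact hp
  obtain ⟨ν, hν, g, hg, hb, hh, hq⟩ := hM _ hp'
  have hit : ∀ x, iteratedFDeriv ℝ 2 (g ∘ P) x
      = (iteratedFDeriv ℝ 2 g (P x)).compContinuousLinearMap fun _ => P := fun x =>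
    P.iteratedFDeriv_comp_right hg x le_rfl
  have hno : ∀ T : ContinuousMultilinearMap ℝ (fun _ : Fin 2 => EuclideanSpace ℝ (Fin m)) ℝ,
      ‖T.compContinuousLinearMap fun _ => P‖ ≤ ‖T‖ := by
    intro T
    refine (ContinuousMultilinearMap.norm_compContinuousLinearMap_le T _).trans ?_
    have h1 : ∏ _i : Fin 2, ‖P‖ ≤ 1 :=
      Finset.prod_le_one (fun _ _ => norm_nonneg _) (fun _ _ => hP.opNorm_le)
    calc ‖T‖ * ∏ _i : Fin 2, ‖P‖ ≤ ‖T‖ * 1 := mul_le_mul_of_nonneg_left h1 (norm_nonneg _)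
      _ = ‖T‖ := mul_one _
  refine ⟨ContinuousLinearMap.adjoint P ν, by rw [hP.norm_adj, hν], g ∘ P,
    hg.comp P.contDiff, ?_, ?_, ?_⟩
  · intro x
    refine ⟨(hb (P x)).1, ?_, ?_⟩
    · have h1 : fderiv ℝ (g ∘ P) x = (fderiv ℝ g (P x)).comp P := by
        rw [fderiv_comp x ((hg.differentiable (by norm_num)) (P x)) P.differentiableAt, P.fderiv]
      rw [h1]
      calc ‖(fderiv ℝ g (P x)).comp P‖ ≤ ‖fderiv ℝ g (P x)‖ * ‖P‖ :=
            ContinuousLinearMap.opNorm_comp_le _ _
        _ ≤ ‖fderiv ℝ g (P x)‖ * 1 := mul_le_mul_of_nonneg_left hP.opNorm_le (norm_nonneg _)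
        _ ≤ M := by rw [mul_one]; exact (hb (P x)).2.1
    · rw [hit x]
      exact (hno _).trans (hb (P x)).2.2
  · intro x y
    rw [hit x, hit y]
    have h1 : edist ((iteratedFDeriv ℝ 2 g (P x)).compContinuousLinearMap fun _ => P)
        ((iteratedFDeriv ℝ 2 g (P y)).compContinuousLinearMap fun _ => P)
        ≤ edist (iteratedFDeriv ℝ 2 g (P x)) (iteratedFDeriv ℝ 2 g (P y)) := by
      rw [edist_dist, edist_dist]
      apply ENNReal.ofReal_le_ofReal
      rw [dist_eq_norm, dist_eq_norm]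
      have h2 : ((iteratedFDeriv ℝ 2 g (P x)).compContinuousLinearMap fun _ => P)
          - ((iteratedFDeriv ℝ 2 g (P y)).compContinuousLinearMap fun _ => P)
          = (iteratedFDeriv ℝ 2 g (P x) - iteratedFDeriv ℝ 2 g (P y)).compContinuousLinearMap
            fun _ => P := by
        ext v
        rfl
      rw [h2]
      exact hno _
    refine h1.trans ((hh (P x) (P y)).trans ?_)
    gcongr
    rw [edist_dist, edist_dist]
    exact ENNReal.ofReal_le_ofReal (hP.dist_le x y)
  · intro q hqb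
    have h1 : P q ∈ ball (P p) r := lt_of_le_of_lt (hP.dist_le q p) hqb
    have h2 := hq (P q) h1
    have h3 : inner ℝ (q - p) (ContinuousLinearMap.adjoint P ν) = inner ℝ (P q - P p) ν := by
      rw [ContinuousLinearMap.adjoint_inner_right, map_sub]
    show P q ∈ Ω ↔ g (P (q - p - (inner ℝ (q - p) (ContinuousLinearMap.adjoint P ν)) •
      ContinuousLinearMap.adjoint P ν)) < inner ℝ (q - p) (ContinuousLinearMap.adjoint P ν)
    rw [h3, map_sub, map_smul, map_sub, hP ν]
    exact h2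

/-- the Laplacian of a function pulled back by a coordinate projection -/
lemma lap_pull {io : Fin m → Fin n} (hio : Function.Injective io)
    (hPio : ∀ x j, (P x).ofLp j = x.ofLp (io j)) {Ω : Set (EuclideanSpace ℝ (Fin m))}
    (hΩ : IsOpen Ω) {u : EuclideanSpace ℝ (Fin m) → ℝ} (hu : ContDiffOn ℝ 2 u Ω)
    {x : EuclideanSpace ℝ (Fin n)} (hx : P x ∈ Ω) :
    lap (u ∘ P) x = lap u (P x) := by
  have hΩ' : IsOpen (P ⁻¹' Ω) := hΩ.preimage P.continuous
  have h1 : iteratedFDeriv ℝ 2 (u ∘ P) x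
      = (iteratedFDeriv ℝ 2 u (P x)).compContinuousLinearMap fun _ => P := by
    rw [← iteratedFDerivWithin_of_isOpen 2 hΩ' hx, ← iteratedFDerivWithin_of_isOpen 2 hΩ hx]
    exact P.iteratedFDerivWithin_comp_right hu hΩ.uniqueDiffOn hΩ'.uniqueDiffOn hx le_rfl
  unfold lap
  rw [h1]
  symm
  refine Fintype.sum_of_injective io hio _ _ ?_ ?_
  · intro i hi
    have h2 : P (EuclideanSpace.single i (1 : ℝ)) = 0 := by
      ext j
      rw [hPio]
      have : io j ≠ i := fun h => hi ⟨j, h⟩
      simp [this]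
    rw [ContinuousMultilinearMap.compContinuousLinearMap_apply]
    exact ContinuousMultilinearMap.map_coord_zero _ (0 : Fin 2) h2
  · intro j
    have h2 : P (EuclideanSpace.single (io j) (1 : ℝ)) = EuclideanSpace.single j 1 := by
      ext i
      rw [hPio]
      by_cases hij : i = j
      · rw [hij]
        simp
      · have : io i ≠ io j := fun h => hij (hio h)
        simp [this, hij]
    rw [ContinuousMultilinearMap.compContinuousLinearMap_apply, h2]

/-- a coordinate projection is a partial isometry -/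
lemma coIso_of_coord {io : Fin m → Fin n} (hio : Function.Injective io)
    (hPio : ∀ x j, (P x).ofLp j = x.ofLp (io j)) : CoIso P := by
  intro v
  ext j
  rw [hPio]
  have h2 : P (EuclideanSpace.single (io j) (1 : ℝ)) = EuclideanSpace.single j 1 := by
    ext i
    rw [hPio]
    by_cases hij : i = j
    · rw [hij]
      simp
    · have : io i ≠ io j := fun h => hij (hio h)
      simp [this, hij]
  have h3 : inner ℝ (EuclideanSpace.single (io j) (1 : ℝ)) (ContinuousLinearMap.adjoint P v)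
      = inner ℝ (EuclideanSpace.single j (1 : ℝ)) v := by
    rw [ContinuousLinearMap.adjoint_inner_right, h2]
  rw [EuclideanSpace.inner_single_left, EuclideanSpace.inner_single_left] at h3
  simpa using h3

/-- solutions are pulled back to cylinders -/
lemma solution_pull {io : Fin m → Fin n} (hio : Function.Injective io)
    (hPio : ∀ x j, (P x).ofLp j = x.ofLp (io j)) {Ω : Set (EuclideanSpace ℝ (Fin m))}
    (hΩ : IsOpen Ω) {f : ℝ → ℝ} {u : EuclideanSpace ℝ (Fin m) → ℝ}
    (hu : IsPositiveBoundedSolution f Ω u) : IsPositiveBoundedSolution f (P ⁻¹' Ω) (u ∘ P) := by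
  have hP := coIso_of_coord hio hPio
  have hcl : closure (P ⁻¹' Ω) = P ⁻¹' closure Ω :=
    (hP.isOpenMap.preimage_closure_eq_closure_preimage P.continuous Ω).symm
  have hfr : frontier (P ⁻¹' Ω) = P ⁻¹' frontier Ω :=
    (hP.isOpenMap.preimage_frontier_eq_frontier_preimage P.continuous Ω).symm
  refine ⟨hu.contDiffOn.comp P.contDiff.contDiffOn (mapsTo_preimage _ _), ?_, ?_, ?_, ?_, ?_⟩
  · rw [hcl]
    exact hu.continuousOn.comp P.continuous.continuousOn (mapsTo_preimage _ _)
  · obtain ⟨C, hC⟩ := hu.bounded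
    exact ⟨C, fun x hx => hC _ hx⟩
  · intro x hx
    exact hu.pos _ hx
  · intro x hx
    rw [hfr] at hx
    exact hu.boundary _ hx
  · intro x hx
    rw [← lap_eq_laplacian, lap_pull hio hPio hΩ hu.contDiffOn hx, lap_eq_laplacian]
    exact hu.equation _ hx

end Pool.Agent.Y830.EP
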